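import Pool.Agent.H.MP_66bcf1_co.Even
import Pool.Agent.H.MP_66bcf1_co.Odd
import Pool.Agent.H.MP_66bcf1_co.Trans

set_option autoImplicit false

namespace Pool.Agent.Results.MP_66bcf1_co.AllNegativeT

open Pool.Agent.H.MP_66bcf1_co

/-- For every `k ≥ 1` and every negative integer `t`, for all large `n`, the signed Johnson graph
`J_±(n,k,t)` and the signed Kneser graph `K_±(n,k,t)` have the same independence number. -/
theorem result (k : ℕ) (_hk : 1 ≤ k) (t : ℤ) (ht : t < 0) :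
    ∃ N : ℕ, ∀ n ≥ N, (J n k t).indepNum = (K n k t).indepNum := by
  obtain ⟨s, rfl⟩ : ∃ s : ℕ, t = -(s : ℤ) := ⟨t.natAbs, by omega⟩
  have hs : 0 < s := by omega
  rcases Nat.lt_or_ge s k with h | h
  · rcases Nat.even_or_odd' s with ⟨m, hm | hm⟩
    · obtain ⟨d, rfl⟩ : ∃ d, m = d + 1 := ⟨m - 1, by omega⟩
      have e : s = 2 * d + 2 := by omega
      subst e
      obtain ⟨N, hN⟩ := core_even d k (by omega)
      exact ⟨N, fun n hn => indepNum_eq n k (2 * d + 2) hs (hN n hn)⟩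
    · subst hm
      obtain ⟨N, hN⟩ := core_odd m k (by omega)
      exact ⟨N, fun n hn => indepNum_eq n k (2 * m + 1) hs (hN n hn)⟩
  · exact ⟨0, fun n _ => by rw [J_eq_K n k s h]⟩

end Pool.Agent.Results.MP_66bcf1_co.AllNegativeT
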